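import Mathlib
import Pool.Agent.Helper77.Cov.Defs

/-! Module E, part 1: the support point of a `C²₊` body is unique and continuous. -/

open MeasureTheory Set Filter Topology

namespace Pool.Agent.Helper5.Cov

open Pool.Agent.Helper77.Cov

variable {n : ℕ}

lemma exists_max {K : Set (V n)} (hK : IsBody K) (u : V n) :
    ∃ x ∈ K, ∀ z ∈ K, inner ℝ u z ≤ inner ℝ u x := by
  have hne : K.Nonempty := hK.interior_nonempty.mono interior_subset
  obtain ⟨x, hx, hmax⟩ := hK.compact.exists_isMaxOn hne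
    (f := fun x => inner ℝ u x) (by fun_prop)
  exact ⟨x, hx, fun z hz => hmax hz⟩

lemma supp_eq {K : Set (V n)} {u x : V n} (hx : x ∈ K)
    (hmax : ∀ z ∈ K, inner ℝ u z ≤ inner ℝ u x) : supp K u = inner ℝ u x := by
  unfold supp
  apply le_antisymm
  · refine csSup_le (Set.Nonempty.image _ ⟨x, hx⟩) ?_
    rintro _ ⟨z, hz, rfl⟩
    exact hmax z hz
  · apply le_csSup
    · refine ⟨inner ℝ u x, ?_⟩
      rintro _ ⟨z, hz, rfl⟩
      exact hmax z hz
    · exact ⟨x, hx, rfl⟩

lemma le_supp {K : Set (V n)} (hK : IsBody K) (u : V n) {z : V n} (hz : z ∈ K) :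
    inner ℝ u z ≤ supp K u := by
  obtain ⟨x, hx, hmax⟩ := exists_max hK u
  rw [supp_eq hx hmax]
  exact hmax z hz

lemma max_mem_frontier {K : Set (V n)} {u x : V n} (hu : u ≠ 0) (hx : x ∈ K)
    (hmax : ∀ z ∈ K, inner ℝ u z ≤ inner ℝ u x) : x ∈ frontier K := by
  refine ⟨subset_closure hx, ?_⟩
  intro hint
  have hcont : Tendsto (fun s : ℝ => x + s • u) (𝓝[>] 0) (𝓝 x) := by
    have h1 : Tendsto (fun s : ℝ => x + s • u) (𝓝 0) (𝓝 (x + (0:ℝ) • u)) := by
      apply Continuous.tendsto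
      fun_prop
    simp only [zero_smul, add_zero] at h1
    exact h1.mono_left nhdsWithin_le_nhds
  have hev : ∀ᶠ s : ℝ in 𝓝[>] 0, x + s • u ∈ K :=
    hcont.eventually (mem_of_superset (isOpen_interior.mem_nhds hint) interior_subset)
  obtain ⟨s, hs, hs0⟩ := (hev.and self_mem_nhdsWithin).exists
  have h1 := hmax _ hs
  rw [inner_add_right, inner_smul_right] at h1
  have h2 : 0 < inner ℝ u u := real_inner_self_pos.mpr hu
  have h3 : 0 < s := hs0
  nlinarith

/-- A frontier point in the domain of a local defining function is a zero of it. -/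
lemma rho_zero {K : Set (V n)} (hK : IsBody K) {U : Set (V n)} {ρ : V n → ℝ} (hU : IsOpen U)
    (hρ : ContinuousOn ρ U) (hKU : K ∩ U = {y ∈ U | ρ y ≤ 0}) {x : V n} (hxU : x ∈ U)
    (hxf : x ∈ frontier K) : ρ x = 0 := by
  have hxK : x ∈ K := hK.compact.isClosed.frontier_subset hxf
  have hle : ρ x ≤ 0 := by
    have : x ∈ {y ∈ U | ρ y ≤ 0} := by
      rw [← hKU]
      exact ⟨hxK, hxU⟩
    exact this.2
  rcases hle.lt_or_eq with h | h
  · exfalso
    have hc : ContinuousAt ρ x := hρ.continuousAt (hU.mem_nhds hxU)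
    have hev : ∀ᶠ y in 𝓝 x, ρ y < 0 := hc.eventually (gt_mem_nhds h)
    have hev2 : ∀ᶠ y in 𝓝 x, y ∈ K := by
      filter_upwards [hev, hU.mem_nhds hxU] with y hy hyU
      have : y ∈ K ∩ U := by
        rw [hKU]
        exact ⟨hyU, hy.le⟩
      exact this.1
    exact hxf.2 (mem_interior_iff_mem_nhds.mpr hev2)
  · exact h

/-- Lagrange multiplier. -/
lemma lagrange {K : Set (V n)} {U : Set (V n)} {ρ : V n → ℝ} (hU : IsOpen U)
    (hKU : K ∩ U = {y ∈ U | ρ y ≤ 0}) {x : V n} (hxU : x ∈ U)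
    (hd : DifferentiableAt ℝ ρ x) (h0 : ρ x = 0) (hne : fderiv ℝ ρ x ≠ 0) {u : V n} (hu : u ≠ 0)
    (hmax : ∀ z ∈ K, inner ℝ u z ≤ inner ℝ u x) :
    ∃ t : ℝ, 0 < t ∧ ∀ v, inner ℝ u v = t * fderiv ℝ ρ x v := by
  -- directions of strict decrease
  have hdec : ∀ v, fderiv ℝ ρ x v < 0 → inner ℝ u v ≤ 0 := by
    intro v hv
    have hline : HasDerivAt (fun s : ℝ => ρ (x + s • v)) (fderiv ℝ ρ x v) 0 := by
      have h1 : HasDerivAt (fun s : ℝ => x + s • v) v 0 := by
        have := ((hasDerivAt_id (0:ℝ)).smul_const v).const_add x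
        simpa using this
      have h2 : HasFDerivAt ρ (fderiv ℝ ρ x) (x + (0:ℝ) • v) := by
        simpa using hd.hasFDerivAt
      exact h2.comp_hasDerivAt (0:ℝ) h1
    have hslope := hline.tendsto_slope_zero_right
    have hev : ∀ᶠ s : ℝ in 𝓝[>] 0, s⁻¹ • (ρ (x + (0 + s) • v) - ρ (x + (0:ℝ) • v)) < 0 :=
      hslope.eventually (gt_mem_nhds hv)
    have hcont : Tendsto (fun s : ℝ => x + s • v) (𝓝[>] 0) (𝓝 x) := by
      have h1 : Tendsto (fun s : ℝ => x + s • v) (𝓝 0) (𝓝 (x + (0:ℝ) • v)) := by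
        apply Continuous.tendsto
        fun_prop
      simp only [zero_smul, add_zero] at h1
      exact h1.mono_left nhdsWithin_le_nhds
    have hev2 : ∀ᶠ s : ℝ in 𝓝[>] 0, x + s • v ∈ U := hcont.eventually (hU.mem_nhds hxU)
    obtain ⟨s, ⟨hs1, hs2⟩, hs0⟩ := ((hev.and hev2).and self_mem_nhdsWithin).exists
    have hs0' : 0 < s := hs0
    have h3 : ρ (x + s • v) < 0 := by
      simp only [zero_add, zero_smul, add_zero, h0, sub_zero, smul_eq_mul] at hs1
      have h4 : 0 < s⁻¹ := inv_pos.mpr hs0'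
      by_contra hcon
      push Not at hcon
      have := mul_nonneg h4.le hcon
      linarith
    have h4 : x + s • v ∈ K := by
      have : x + s • v ∈ K ∩ U := by
        rw [hKU]
        exact ⟨hs2, h3.le⟩
      exact this.1
    have h5 := hmax _ h4
    rw [inner_add_right, inner_smul_right] at h5
    by_contra hcon
    push Not at hcon
    have := mul_pos hs0' hcon
    linarith
  obtain ⟨w, hw⟩ : ∃ w, fderiv ℝ ρ x w = 1 := by
    have : ∃ v, fderiv ℝ ρ x v ≠ 0 := by
      by_contra hcon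
      push Not at hcon
      exact hne (ContinuousLinearMap.ext hcon)
    obtain ⟨v, hv⟩ := this
    refine ⟨(fderiv ℝ ρ x v)⁻¹ • v, ?_⟩
    rw [map_smul, smul_eq_mul, inv_mul_cancel₀ hv]
  have hker : ∀ v, fderiv ℝ ρ x v = 0 → inner ℝ u v ≤ 0 := by
    intro v hv
    have h1 : ∀ e : ℝ, 0 < e → inner ℝ u v ≤ e * inner ℝ u w := by
      intro e he
      have h2 := hdec (v - e • w) (by
        rw [map_sub, map_smul, hv, hw]
        simpa using he)
      rw [inner_sub_right, inner_smul_right] at h2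
      linarith
    have h3 : Tendsto (fun e : ℝ => e * inner ℝ u w) (𝓝[>] 0) (𝓝 0) := by
      have : Tendsto (fun e : ℝ => e * inner ℝ u w) (𝓝 0) (𝓝 (0 * inner ℝ u w)) := by
        apply Continuous.tendsto
        fun_prop
      rw [zero_mul] at this
      exact this.mono_left nhdsWithin_le_nhds
    exact ge_of_tendsto h3 (by
      filter_upwards [self_mem_nhdsWithin] with e he
      exact h1 e he)
  have hker0 : ∀ v, fderiv ℝ ρ x v = 0 → inner ℝ u v = 0 := by
    intro v hv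
    apply le_antisymm (hker v hv)
    have := hker (-v) (by rw [map_neg, hv, neg_zero])
    rw [inner_neg_right] at this
    linarith
  have hall : ∀ v, inner ℝ u v = inner ℝ u w * fderiv ℝ ρ x v := by
    intro v
    have h1 := hker0 (v - (fderiv ℝ ρ x v) • w) (by
      rw [map_sub, map_smul, hw, smul_eq_mul, mul_one, sub_self])
    rw [inner_sub_right, inner_smul_right] at h1
    linarith
  refine ⟨inner ℝ u w, ?_, hall⟩
  have hge : 0 ≤ inner ℝ u w := by
    have := hdec (-w) (by rw [map_neg, hw]; norm_num)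
    rw [inner_neg_right] at this
    linarith
  rcases hge.lt_or_eq with h | h
  · exact h
  · exfalso
    apply hu
    have h1 := hall u
    rw [← h, zero_mul] at h1
    exact inner_self_eq_zero.mp h1

/-- If `g 0 = 0`, `g' 0 = 0` and `g'' 0 > 0` then `g > 0` just to the right of `0`. -/
lemma pos_right_of_second {g g' : ℝ → ℝ} {c : ℝ} (hg : ∀ᶠ s in 𝓝 (0:ℝ), HasDerivAt g (g' s) s)
    (hg' : HasDerivAt g' c 0) (hc : 0 < c) (h0 : g 0 = 0) (h0' : g' 0 = 0) :
    ∀ᶠ s in 𝓝[>] (0:ℝ), 0 < g s := by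
  -- g' > 0 on a right neighbourhood
  have hslope := hg'.tendsto_slope_zero_right
  have hev : ∀ᶠ s : ℝ in 𝓝[>] 0, 0 < s⁻¹ • (g' (0 + s) - g' 0) :=
    hslope.eventually (lt_mem_nhds hc)
  have hpos : ∀ᶠ s : ℝ in 𝓝[>] 0, 0 < g' s := by
    filter_upwards [hev, self_mem_nhdsWithin] with s hs hs0
    have hs0' : 0 < s := hs0
    rw [zero_add, h0', sub_zero, smul_eq_mul] at hs
    exact (mul_pos_iff_of_pos_left (inv_pos.mpr hs0')).mp hs
  obtain ⟨a, ha, hab⟩ : ∃ a > 0, ∀ s ∈ Ioo (0:ℝ) a, 0 < g' s := by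
    rw [eventually_iff, mem_nhdsGT_iff_exists_Ioo_subset] at hpos
    obtain ⟨a, ha, hsub⟩ := hpos
    exact ⟨a, ha, fun s hs => hsub hs⟩
  obtain ⟨b, hb, hbd⟩ : ∃ b > 0, ∀ s, |s| < b → HasDerivAt g (g' s) s := by
    rw [Metric.eventually_nhds_iff] at hg
    obtain ⟨b, hb, h⟩ := hg
    refine ⟨b, hb, fun s hs => h ?_⟩
    rwa [Real.dist_eq, sub_zero]
  have hmin : 0 < min a b := lt_min ha hb
  have hmem : Ioo (0:ℝ) (min a b) ∈ 𝓝[>] (0:ℝ) := Ioo_mem_nhdsGT hmin
  filter_upwards [hmem] with s hs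
  have hs1 : 0 < s := hs.1
  have hs2 : s < a := hs.2.trans_le (min_le_left _ _)
  have hs3 : s < b := hs.2.trans_le (min_le_right _ _)
  have hmono : StrictMonoOn g (Icc 0 s) := by
    apply strictMonoOn_of_deriv_pos (convex_Icc 0 s)
    · intro x hx
      apply ContinuousAt.continuousWithinAt
      apply (hbd x _).continuousAt
      rw [abs_of_nonneg hx.1]
      linarith [hx.2]
    · intro x hx
      rw [interior_Icc] at hx
      rw [(hbd x (by rw [abs_of_pos hx.1]; linarith [hx.2])).deriv]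
      exact hab x ⟨hx.1, hx.2.trans hs2⟩
  have := hmono (left_mem_Icc.mpr hs1.le) (right_mem_Icc.mpr hs1.le) hs1
  rwa [h0] at this

/-- Uniqueness of the support point. -/
lemma max_unique {K : Set (V n)} (hK : IsBody K) (h2 : CkPlus 2 K) {u : V n} (hu : u ≠ 0)
    {x x' : V n} (hx : x ∈ K) (hmax : ∀ z ∈ K, inner ℝ u z ≤ inner ℝ u x)
    (hx' : x' ∈ K) (hmax' : ∀ z ∈ K, inner ℝ u z ≤ inner ℝ u x') : x' = x := by
  by_contra hne
  have hxf := max_mem_frontier hu hx hmax
  obtain ⟨U, ρ, hU, hxU, hρ, hKU, hdne, hpos⟩ := h2 x hxf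
  have h0 : ρ x = 0 := rho_zero hK hU hρ.continuousOn hKU hxU hxf
  have hCat : ContDiffAt ℝ 2 ρ x := hρ.contDiffAt (hU.mem_nhds hxU)
  have hd : DifferentiableAt ℝ ρ x := hCat.differentiableAt (by norm_num)
  obtain ⟨t, ht, hall⟩ := lagrange hU hKU hxU hd h0 hdne hu hmax
  set v := x' - x with hv
  have hvne : v ≠ 0 := sub_ne_zero.mpr hne
  have heq : inner ℝ u x' = inner ℝ u x := le_antisymm (hmax x' hx') (hmax' x hx)
  have huv : inner ℝ u v = 0 := by rw [hv, inner_sub_right, heq, sub_self]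
  have hdv : fderiv ℝ ρ x v = 0 := by
    have := hall v
    rw [huv] at this
    rcases mul_eq_zero.mp this.symm with h | h
    · exact absurd h ht.ne'
    · exact h
  have hD2 := hpos v hvne hdv
  -- the function along the segment
  have hUev : ∀ᶠ s : ℝ in 𝓝 0, x + s • v ∈ U := by
    have h1 : Tendsto (fun s : ℝ => x + s • v) (𝓝 0) (𝓝 (x + (0:ℝ) • v)) := by
      apply Continuous.tendsto
      fun_prop
    simp only [zero_smul, add_zero] at h1
    exact h1.eventually (hU.mem_nhds hxU)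
  have hline : ∀ s : ℝ, HasDerivAt (fun s : ℝ => x + s • v) v s := by
    intro s
    have := ((hasDerivAt_id s).smul_const v).const_add x
    simpa using this
  have hg : ∀ᶠ s in 𝓝 (0:ℝ), HasDerivAt (fun s : ℝ => ρ (x + s • v))
      (fderiv ℝ ρ (x + s • v) v) s := by
    filter_upwards [hUev] with s hs
    have h1 : DifferentiableAt ℝ ρ (x + s • v) :=
      (hρ.contDiffAt (hU.mem_nhds hs)).differentiableAt (by norm_num)
    exact h1.hasFDerivAt.comp_hasDerivAt s (hline s)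
  have hg' : HasDerivAt (fun s : ℝ => fderiv ℝ ρ (x + s • v) v)
      (fderiv ℝ (fderiv ℝ ρ) x v v) 0 := by
    have h1 : DifferentiableAt ℝ (fderiv ℝ ρ) x :=
      (hCat.fderiv_right (m := 1) (by norm_num)).differentiableAt (by norm_num)
    have h2 : HasFDerivAt (fderiv ℝ ρ) (fderiv ℝ (fderiv ℝ ρ) x) (x + (0:ℝ) • v) := by
      simpa using h1.hasFDerivAt
    have h3 := h2.comp_hasDerivAt (0:ℝ) (hline 0)
    have h4 := (ContinuousLinearMap.apply ℝ ℝ v).hasFDerivAt.comp_hasDerivAt (0:ℝ) h3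
    exact h4
  have hposr := pos_right_of_second hg hg' hD2 (by simpa using h0) (by simpa using hdv)
  have hIoo : ∀ᶠ s : ℝ in 𝓝[>] 0, s ∈ Ioo (0:ℝ) 1 := Ioo_mem_nhdsGT one_pos
  obtain ⟨s, ⟨hs1, hs2⟩, hs3⟩ :=
    ((hposr.and (hUev.filter_mono nhdsWithin_le_nhds)).and hIoo).exists
  have hmem : x + s • v ∈ K := by
    have h1 : x + s • v = (1 - s) • x + s • x' := by
      rw [hv, smul_sub, sub_smul, one_smul]
      abel
    rw [h1]
    exact hK.convex hx hx' (by linarith [hs3.2]) hs3.1.le (by ring)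
  have : x + s • v ∈ {y ∈ U | ρ y ≤ 0} := by
    rw [← hKU]
    exact ⟨hmem, hs2⟩
  exact absurd this.2 (not_le.mpr hs1)

/-- The support point. -/
noncomputable def X (K : Set (V n)) (hK : IsBody K) (u : V n) : V n :=
  (exists_max hK u).choose

lemma X_mem (K : Set (V n)) (hK : IsBody K) (u : V n) : X K hK u ∈ K :=
  (exists_max hK u).choose_spec.1

lemma X_max (K : Set (V n)) (hK : IsBody K) (u : V n) :
    ∀ z ∈ K, inner ℝ u z ≤ inner ℝ u (X K hK u) :=
  (exists_max hK u).choose_spec.2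

lemma supp_X (K : Set (V n)) (hK : IsBody K) (u : V n) :
    supp K u = inner ℝ u (X K hK u) :=
  supp_eq (X_mem K hK u) (X_max K hK u)

lemma X_tendsto {K : Set (V n)} (hK : IsBody K) (h2 : CkPlus 2 K) {u : V n} (hu : u ≠ 0) :
    Tendsto (X K hK) (𝓝 u) (𝓝 (X K hK u)) := by
  apply tendsto_of_subseq_tendsto
  intro ns hns
  obtain ⟨y, hyK, φ, hφ, hlim⟩ := hK.compact.tendsto_subseq (fun k => X_mem K hK (ns k))
  refine ⟨φ, ?_⟩
  have hy : y = X K hK u := by
    apply max_unique hK h2 hu (X_mem K hK u) (X_max K hK u) hyK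
    intro z hz
    have h1 : Tendsto (fun k => ns (φ k)) atTop (𝓝 u) := hns.comp hφ.tendsto_atTop
    have h3 : Tendsto (fun k => inner ℝ (ns (φ k)) z) atTop (𝓝 (inner ℝ u z)) :=
      h1.inner tendsto_const_nhds
    have h4 : Tendsto (fun k => inner ℝ (ns (φ k)) (X K hK (ns (φ k)))) atTop
        (𝓝 (inner ℝ u y)) := h1.inner hlim
    exact le_of_tendsto_of_tendsto' h3 h4 (fun k => X_max K hK _ z hz)
  rw [← hy]
  exact hlim

end Pool.Agent.Helper5.Cov
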