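import Mathlib
import Pool.Agent.Helper77.Cov.Defs
import Pool.Agent.Helper5.Cov.E1

/-! Module E, part 2: the support point map is `C¹`, and conclusion. -/

open MeasureTheory Set Filter Topology

namespace Pool.Agent.Helper5.Cov

open Pool.Agent.Helper77.Cov

variable {n : ℕ}

/-- The gradient as a vector. -/
noncomputable def grad (ρ : V n → ℝ) (x : V n) : V n :=
  (InnerProductSpace.toDual ℝ (V n)).symm (fderiv ℝ ρ x)

lemma inner_grad (ρ : V n → ℝ) (x v : V n) : inner ℝ (grad ρ x) v = fderiv ℝ ρ x v := by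
  simp [grad]

/-- The map of the inverse function theorem. -/
noncomputable def Psi (ρ : V n → ℝ) (p : V n × ℝ) : V n × ℝ :=
  (p.2 • grad ρ p.1, ρ p.1)

lemma grad_contDiffAt {ρ : V n → ℝ} {x : V n} (h : ContDiffAt ℝ 2 ρ x) :
    ContDiffAt ℝ 1 (grad ρ) x := by
  have h1 : ContDiffAt ℝ 1 (fderiv ℝ ρ) x := h.fderiv_right (m := 1) (by norm_num)
  have h2 : ContDiff ℝ 1 (fun f : V n →L[ℝ] ℝ => (InnerProductSpace.toDual ℝ (V n)).symm f) :=
    (InnerProductSpace.toDual ℝ (V n)).symm.contDiff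
  exact h2.contDiffAt.comp x h1

lemma Psi_contDiffAt {ρ : V n → ℝ} {x : V n} (h : ContDiffAt ℝ 2 ρ x) (t : ℝ) :
    ContDiffAt ℝ 1 (Psi ρ) (x, t) := by
  unfold Psi
  apply ContDiffAt.prodMk
  · have h1 : ContDiffAt ℝ 1 (fun p : V n × ℝ => grad ρ p.1) (x, t) :=
      ContDiffAt.comp (x, t) (g := grad ρ) (f := Prod.fst) (grad_contDiffAt h) contDiffAt_fst
    have h2 : ContDiffAt ℝ 1 (fun p : V n × ℝ => p.2) (x, t) := contDiffAt_snd
    exact h2.smul h1
  · exact (h.of_le (by norm_num)).comp (x, t) contDiffAt_fst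

/-- The Riesz map as a real linear map. -/
noncomputable def rz (n : ℕ) : (V n →L[ℝ] ℝ) →L[ℝ] V n :=
  LinearMap.toContinuousLinearMap
    { toFun := fun f => (InnerProductSpace.toDual ℝ (V n)).symm f
      map_add' := fun f g => map_add _ f g
      map_smul' := fun c f => by simp }

lemma rz_apply (f : V n →L[ℝ] ℝ) : rz n f = (InnerProductSpace.toDual ℝ (V n)).symm f := rfl

/-- derivative of the gradient -/
lemma grad_hasFDerivAt {ρ : V n → ℝ} {x : V n} (h : ContDiffAt ℝ 2 ρ x) :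
    ∃ G : V n →L[ℝ] V n, HasFDerivAt (grad ρ) G x ∧
      ∀ v w, inner ℝ (G v) w = fderiv ℝ (fderiv ℝ ρ) x v w := by
  have h1 : DifferentiableAt ℝ (fderiv ℝ ρ) x :=
    (h.fderiv_right (m := 1) (by norm_num)).differentiableAt (by norm_num)
  refine ⟨(rz n) ∘L (fderiv ℝ (fderiv ℝ ρ) x), ?_, ?_⟩
  · exact HasFDerivAt.comp x (g := rz n) (f := fderiv ℝ ρ) (rz n).hasFDerivAt h1.hasFDerivAt
  · intro v w
    rw [ContinuousLinearMap.comp_apply, rz_apply, InnerProductSpace.toDual_symm_apply]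

lemma Psi_hasFDerivAt {ρ : V n → ℝ} {x : V n} (h : ContDiffAt ℝ 2 ρ x) {t : ℝ} (ht : t ≠ 0)
    (hne : fderiv ℝ ρ x ≠ 0)
    (hpos : ∀ v : V n, v ≠ 0 → fderiv ℝ ρ x v = 0 → 0 < fderiv ℝ (fderiv ℝ ρ) x v v) :
    ∃ L : (V n × ℝ) ≃L[ℝ] (V n × ℝ), HasFDerivAt (Psi ρ) (L : (V n × ℝ) →L[ℝ] (V n × ℝ)) (x, t) := by
  obtain ⟨G, hG, hGin⟩ := grad_hasFDerivAt h
  have hρ : HasFDerivAt ρ (fderiv ℝ ρ x) x := (h.differentiableAt (by norm_num)).hasFDerivAt
  have hfst : HasFDerivAt (Prod.fst : V n × ℝ → V n) (ContinuousLinearMap.fst ℝ (V n) ℝ) (x, t) :=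
    hasFDerivAt_fst
  have hsnd : HasFDerivAt (Prod.snd : V n × ℝ → ℝ) (ContinuousLinearMap.snd ℝ (V n) ℝ) (x, t) :=
    hasFDerivAt_snd
  have hG1 : HasFDerivAt (fun p : V n × ℝ => grad ρ p.1)
      (G ∘L (ContinuousLinearMap.fst ℝ (V n) ℝ)) (x, t) := by
    exact HasFDerivAt.comp (x, t) (f := Prod.fst) (g := grad ρ) hG hfst
  have hρ1 : HasFDerivAt (fun p : V n × ℝ => ρ p.1)
      ((fderiv ℝ ρ x) ∘L (ContinuousLinearMap.fst ℝ (V n) ℝ)) (x, t) := by
    exact HasFDerivAt.comp (x, t) (f := Prod.fst) (g := ρ) hρ hfst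
  have hsm := hsnd.smul hG1
  have hP := hsm.prodMk hρ1
  set D := (((x, t) : V n × ℝ).2 • (G ∘L (ContinuousLinearMap.fst ℝ (V n) ℝ)) +
    (ContinuousLinearMap.snd ℝ (V n) ℝ).smulRight (grad ρ ((x, t) : V n × ℝ).1)).prod
    ((fderiv ℝ ρ x) ∘L (ContinuousLinearMap.fst ℝ (V n) ℝ)) with hD
  have hinj : Function.Injective D := by
    rw [injective_iff_map_eq_zero]
    rintro ⟨v, s⟩ hvs
    simp only [hD, ContinuousLinearMap.prod_apply, add_apply,
      smul_apply, ContinuousLinearMap.comp_apply,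
      ContinuousLinearMap.coe_fst', ContinuousLinearMap.coe_snd',
      ContinuousLinearMap.smulRight_apply, Prod.mk_eq_zero] at hvs
    obtain ⟨h1, h2⟩ := hvs
    have h3 : inner ℝ (t • G v + s • grad ρ x) v = 0 := by rw [h1, inner_zero_left]
    rw [inner_add_left, inner_smul_left, inner_smul_left, hGin, inner_grad, h2] at h3
    simp only [conj_trivial, mul_zero, add_zero] at h3
    have h4 : v = 0 := by
      by_contra hv
      have := hpos v hv h2
      rcases mul_eq_zero.mp h3 with h | h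
      · exact ht h
      · rw [h] at this
        exact lt_irrefl _ this
    subst h4
    rw [map_zero, smul_zero, zero_add] at h1
    have h5 : grad ρ x ≠ 0 := by
      intro h0
      apply hne
      apply ContinuousLinearMap.ext
      intro w
      rw [← inner_grad, h0, inner_zero_left]
      rfl
    rcases smul_eq_zero.mp h1 with h | h
    · rw [h]; rfl
    · exact absurd h h5
  have hinj' : Function.Injective (D : (V n × ℝ) →ₗ[ℝ] (V n × ℝ)) := hinj
  let e : (V n × ℝ) ≃ₗ[ℝ] (V n × ℝ) := LinearEquiv.ofInjectiveEndo _ hinj'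
  refine ⟨e.toContinuousLinearEquiv, ?_⟩
  have he : ((e.toContinuousLinearEquiv : (V n × ℝ) ≃L[ℝ] (V n × ℝ)) :
      (V n × ℝ) →L[ℝ] (V n × ℝ)) = D := by
    apply ContinuousLinearMap.ext
    intro p
    rfl
  rw [he]
  exact hP

/-- Local structure of the support point map. -/
lemma X_local {K : Set (V n)} (hK : IsBody K) (h2 : CkPlus 2 K) {u : V n} (hu : u ≠ 0) :
    ContDiffAt ℝ 1 (X K hK) u ∧
      ∀ w, w ∉ Submodule.span ℝ {u} → 0 < inner ℝ (fderiv ℝ (X K hK) u w) w := by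
  set x₀ := X K hK u with hx₀
  have hxf := max_mem_frontier hu (X_mem K hK u) (X_max K hK u)
  obtain ⟨U, ρ, hU, hxU, hρ, hKU, hdne, hpos⟩ := h2 x₀ hxf
  have hC : ∀ y ∈ U, ContDiffAt ℝ 2 ρ y := fun y hy => hρ.contDiffAt (hU.mem_nhds hy)
  -- near u the support point is in U and the differential of ρ does not vanish
  have hXt := X_tendsto hK h2 hu
  have hUev : ∀ᶠ w in 𝓝 u, X K hK w ∈ U := hXt.eventually (hU.mem_nhds hxU)
  have hgradc : ContinuousAt (grad ρ) x₀ := (grad_contDiffAt (hC x₀ hxU)).continuousAt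
  have hgne : grad ρ x₀ ≠ 0 := by
    intro h0
    apply hdne
    apply ContinuousLinearMap.ext
    intro w
    rw [← inner_grad, h0, inner_zero_left]
    rfl
  have hgev : ∀ᶠ w in 𝓝 u, grad ρ (X K hK w) ≠ 0 := by
    have : Tendsto (fun w => grad ρ (X K hK w)) (𝓝 u) (𝓝 (grad ρ x₀)) := hgradc.tendsto.comp hXt
    exact this.eventually_ne hgne
  have hune : ∀ᶠ w in 𝓝 u, w ≠ 0 := isOpen_ne.mem_nhds hu
  -- the multiplier
  set τ : V n → ℝ := fun w => ‖w‖ / ‖grad ρ (X K hK w)‖ with hτ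
  have hmul : ∀ᶠ w in 𝓝 u, ρ (X K hK w) = 0 ∧ w = τ w • grad ρ (X K hK w) ∧ 0 < τ w := by
    filter_upwards [hUev, hgev, hune] with w hwU hwg hw0
    have h0 : ρ (X K hK w) = 0 := rho_zero hK hU hρ.continuousOn hKU hwU
      (max_mem_frontier hw0 (X_mem K hK w) (X_max K hK w))
    have hdn : fderiv ℝ ρ (X K hK w) ≠ 0 := by
      intro h
      apply hwg
      unfold grad
      rw [h, map_zero]
    obtain ⟨t, ht, hall⟩ := lagrange hU hKU hwU
      ((hC _ hwU).differentiableAt (by norm_num)) h0 hdn hw0 (X_max K hK w)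
    have hw : w = t • grad ρ (X K hK w) := by
      apply ext_inner_right ℝ
      intro v
      rw [hall v, inner_smul_left, inner_grad]
      rfl
    have htτ : τ w = t := by
      have h3 : ‖w‖ = t * ‖grad ρ (X K hK w)‖ := by
        conv_lhs => rw [hw]
        rw [norm_smul, Real.norm_eq_abs, abs_of_pos ht]
      have h4 : ‖grad ρ (X K hK w)‖ ≠ 0 := norm_ne_zero_iff.mpr hwg
      simp only [hτ]
      rw [h3]
      field_simp
    rw [htτ]
    exact ⟨h0, hw, ht⟩
  have hself := hmul.self_of_nhds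
  obtain ⟨h0, hu0, ht0⟩ := hself
  obtain ⟨L, hL⟩ := Psi_hasFDerivAt (hC x₀ hxU) ht0.ne' hdne hpos
  have hPC : ContDiffAt ℝ 1 (Psi ρ) (x₀, τ u) := Psi_contDiffAt (hC x₀ hxU) (τ u)
  have hinv := hPC.to_localInverse hL (by norm_num)
  have hstrict := hPC.hasStrictFDerivAt' hL (by norm_num)
  have hleft := hstrict.eventually_left_inverse
  have hτc : Tendsto τ (𝓝 u) (𝓝 (τ u)) := by
    have h3 : Tendsto (fun w => grad ρ (X K hK w)) (𝓝 u) (𝓝 (grad ρ x₀)) :=
      hgradc.tendsto.comp hXt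
    exact (continuous_norm.tendsto u).div h3.norm (norm_ne_zero_iff.mpr hgne)
  have hpair : Tendsto (fun w => (X K hK w, τ w)) (𝓝 u) (𝓝 (x₀, τ u)) :=
    hXt.prodMk_nhds hτc
  have hPsiu : Psi ρ (x₀, τ u) = (u, 0) := by
    unfold Psi
    simp only
    rw [← hu0, h0]
  set J := hPC.localInverse hL (by norm_num) with hJ
  have hkey : ∀ᶠ w in 𝓝 u, J (w, 0) = (X K hK w, τ w) := by
    filter_upwards [hpair.eventually hleft, hmul] with w hw1 hw2
    have h3 : Psi ρ (X K hK w, τ w) = (w, 0) := by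
      unfold Psi
      simp only
      rw [← hw2.2.1, hw2.1]
    rw [h3] at hw1
    exact hw1
  rw [hPsiu] at hinv
  have hJc : ContDiffAt ℝ 1 (fun w : V n => J (w, 0)) u := by
    have h3 : ContDiffAt ℝ 1 (fun w : V n => ((w, 0) : V n × ℝ)) u :=
      contDiffAt_id.prodMk contDiffAt_const
    exact ContDiffAt.comp u (g := J) (f := fun w : V n => ((w, 0) : V n × ℝ)) hinv h3
  have hXC : ContDiffAt ℝ 1 (X K hK) u := by
    have h3 : ContDiffAt ℝ 1 (fun w : V n => (J (w, 0)).1) u := contDiffAt_fst.comp u hJc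
    apply h3.congr_of_eventuallyEq
    filter_upwards [hkey] with w hw
    rw [hw]
  have hτC : ContDiffAt ℝ 1 τ u := by
    have h3 : ContDiffAt ℝ 1 (fun w : V n => (J (w, 0)).2) u := contDiffAt_snd.comp u hJc
    apply h3.congr_of_eventuallyEq
    filter_upwards [hkey] with w hw
    rw [hw]
  refine ⟨hXC, ?_⟩
  intro w hw
  have hXd : HasFDerivAt (X K hK) (fderiv ℝ (X K hK) u) u :=
    (hXC.differentiableAt (by norm_num)).hasFDerivAt
  have hτd : HasFDerivAt τ (fderiv ℝ τ u) u := (hτC.differentiableAt (by norm_num)).hasFDerivAt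
  set v := fderiv ℝ (X K hK) u w with hv
  -- differentiate ρ (X w) = 0
  have hρd : HasFDerivAt ρ (fderiv ℝ ρ x₀) (X K hK u) :=
    ((hC x₀ hxU).differentiableAt (by norm_num)).hasFDerivAt
  have hd0 : fderiv ℝ ρ x₀ v = 0 := by
    have h3 : HasFDerivAt (fun w => ρ (X K hK w)) ((fderiv ℝ ρ x₀) ∘L (fderiv ℝ (X K hK) u)) u :=
      hρd.comp u hXd
    have h4 : HasFDerivAt (fun w => ρ (X K hK w)) (0 : V n →L[ℝ] ℝ) u := by
      apply (hasFDerivAt_const (0:ℝ) u).congr_of_eventuallyEq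
      filter_upwards [hmul] with w hw
      exact hw.1
    have h5 := h3.unique h4
    have h6 := congrArg (fun f : V n →L[ℝ] ℝ => f w) h5
    simpa using h6
  obtain ⟨G, hG, hGin⟩ := grad_hasFDerivAt (hC x₀ hxU)
  have hw_eq : w = τ u • G v + (fderiv ℝ τ u w) • grad ρ x₀ := by
    have hG' : HasFDerivAt (fun w => grad ρ (X K hK w)) (G ∘L (fderiv ℝ (X K hK) u)) u :=
      HasFDerivAt.comp u (g := grad ρ) (f := X K hK) hG hXd
    have h3 := hτd.smul hG'
    have h4 : HasFDerivAt (fun w => τ w • grad ρ (X K hK w)) (ContinuousLinearMap.id ℝ (V n)) u := by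
      apply (hasFDerivAt_id u).congr_of_eventuallyEq
      filter_upwards [hmul] with w hw
      exact hw.2.1.symm
    have h5 := h3.unique h4
    have h6 := congrArg (fun f : V n →L[ℝ] V n => f w) h5
    simp only [add_apply, smul_apply,
      ContinuousLinearMap.comp_apply, ContinuousLinearMap.smulRight_apply,
      ContinuousLinearMap.id_apply] at h6
    exact h6.symm
  by_cases hv0 : v = 0
  · exfalso
    apply hw
    rw [Submodule.mem_span_singleton]
    rw [hv0, map_zero, smul_zero, zero_add] at hw_eq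
    refine ⟨fderiv ℝ τ u w / τ u, ?_⟩
    calc (fderiv ℝ τ u w / τ u) • u
        = (fderiv ℝ τ u w / τ u) • (τ u • grad ρ (X K hK u)) := by rw [← hu0]
      _ = w := by
        rw [smul_smul, div_mul_cancel₀ _ ht0.ne']
        exact hw_eq.symm
  · have h3 : inner ℝ v w = τ u * fderiv ℝ (fderiv ℝ ρ) x₀ v v := by
      conv_lhs => rw [hw_eq]
      rw [inner_add_right, inner_smul_right, inner_smul_right, real_inner_comm (G v) v,
        real_inner_comm (grad ρ x₀) v, inner_grad, hd0, hGin]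
      ring
    rw [h3]
    exact mul_pos ht0 (hpos v hv0 hd0)

/-- The gradient of the support function is the support point. -/
lemma supp_hasFDerivAt {K : Set (V n)} (hK : IsBody K) (h2 : CkPlus 2 K) {u : V n} (hu : u ≠ 0) :
    HasFDerivAt (supp K) (innerSL ℝ (X K hK u)) u := by
  rw [hasFDerivAt_iff_isLittleO_nhds_zero]
  rw [Asymptotics.isLittleO_iff]
  intro c hc
  have hXt := X_tendsto hK h2 hu
  have hev : ∀ᶠ w in 𝓝 u, ‖X K hK w - X K hK u‖ < c := by
    have h3 : Tendsto (fun w => ‖X K hK w - X K hK u‖) (𝓝 u) (𝓝 ‖X K hK u - X K hK u‖) :=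
      (hXt.sub_const _).norm
    rw [sub_self, norm_zero] at h3
    exact h3.eventually (gt_mem_nhds hc)
  have hsh : Tendsto (fun w : V n => u + w) (𝓝 0) (𝓝 u) := by
    have h3 : Tendsto (fun w : V n => u + w) (𝓝 0) (𝓝 (u + 0)) := by
      apply Continuous.tendsto
      fun_prop
    rwa [add_zero] at h3
  filter_upwards [hsh.eventually hev] with w hw
  have h3 : supp K u = inner ℝ u (X K hK u) := supp_X K hK u
  have h4 : supp K (u + w) = inner ℝ (u + w) (X K hK (u + w)) := supp_X K hK (u + w)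
  have h5 : inner ℝ (u + w) (X K hK u) ≤ inner ℝ (u + w) (X K hK (u + w)) :=
    X_max K hK (u + w) _ (X_mem K hK u)
  have h6 : inner ℝ u (X K hK (u + w)) ≤ inner ℝ u (X K hK u) :=
    X_max K hK u _ (X_mem K hK (u + w))
  have h7 : innerSL ℝ (X K hK u) w = inner ℝ w (X K hK u) := by
    rw [innerSL_apply_apply, real_inner_comm]
  rw [h7, h3, h4, Real.norm_eq_abs]
  rw [inner_add_left] at h5 ⊢
  rw [inner_add_left] at h5
  have h8 : inner ℝ w (X K hK (u + w)) - inner ℝ w (X K hK u) ≤ c * ‖w‖ := by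
    rw [← inner_sub_right]
    refine (real_inner_le_norm _ _).trans ?_
    rw [mul_comm]
    exact mul_le_mul_of_nonneg_right hw.le (norm_nonneg _)
  rw [abs_le]
  have h9 : 0 ≤ c * ‖w‖ := mul_nonneg hc.le (norm_nonneg _)
  constructor
  · linarith
  · linarith

/-- **Module E** (regularity of the support function of a `C²₊` body). -/
theorem supp_of_CkPlus {n : ℕ} {K : Set (V n)} (hK : IsBody K) (h2 : CkPlus 2 K) :
    ContDiffOn ℝ 2 (supp K) {0}ᶜ ∧
    ∀ y, y ≠ 0 → ∀ v, v ∉ Submodule.span ℝ {y} → 0 < fderiv ℝ (fderiv ℝ (supp K)) y v v := by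
  have hopen : IsOpen ({0}ᶜ : Set (V n)) := isOpen_compl_singleton
  have hfd : ∀ u ∈ ({0}ᶜ : Set (V n)), fderiv ℝ (supp K) u = innerSL ℝ (X K hK u) :=
    fun u hu => (supp_hasFDerivAt hK h2 hu).fderiv
  constructor
  · have h21 : (2 : WithTop ℕ∞) = 1 + 1 := by norm_num
    rw [h21, contDiffOn_succ_iff_fderiv_of_isOpen hopen]
    refine ⟨fun u hu => (supp_hasFDerivAt hK h2 hu).differentiableAt.differentiableWithinAt,
      by simp, ?_⟩
    intro u hu
    apply ContDiffAt.contDiffWithinAt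
    have h3 : ContDiffAt ℝ 1 (fun w => innerSL ℝ (X K hK w)) u :=
      (innerSL ℝ (E := V n)).contDiff.contDiffAt.comp u (X_local hK h2 hu).1
    apply h3.congr_of_eventuallyEq
    filter_upwards [hopen.mem_nhds hu] with w hw
    exact hfd w hw
  · intro y hy v hv
    obtain ⟨hXC, hXp⟩ := X_local hK h2 hy
    have hXd : HasFDerivAt (X K hK) (fderiv ℝ (X K hK) y) y :=
      (hXC.differentiableAt (by norm_num)).hasFDerivAt
    have h3 : HasFDerivAt (fderiv ℝ (supp K)) ((innerSL ℝ (E := V n)) ∘L (fderiv ℝ (X K hK) y)) y := by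
      have h4 : HasFDerivAt (fun w => innerSL ℝ (X K hK w))
          ((innerSL ℝ (E := V n)) ∘L (fderiv ℝ (X K hK) y)) y :=
        (innerSL ℝ (E := V n)).hasFDerivAt.comp y hXd
      apply h4.congr_of_eventuallyEq
      filter_upwards [hopen.mem_nhds hy] with w hw
      exact hfd w hw
    rw [h3.fderiv]
    exact hXp v hv

end Pool.Agent.Helper5.Cov
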